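import Mathlib
import Pool.Agent.N746.Self.Multi

/-!
# Failures of the abc inequality multiply

For `ε > 0` and a positive integer `c` let `bad ε c` be the set of the `a` for which `(a, c - a, c)` is
a coprime triple violating `c ≤ R (a b c) ^ (1 + ε)`. If the abc conjecture is false, then for all
small `ε > 0` there are infinitely many `c` for which this set has at least `ε ^ (-s)` elements: one
violation produces many, slightly weaker violations with one and the same `c`. Here `s ≥ 0` is any
number with `∑ 2 ≤ m ≤ M, m ^ (-s) > 1` for some `M`, for instance `s = 1` (with `M = 4`).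

So the abc conjecture holds if and only if, for a sequence of `ε` tending to zero, each large `c` has
fewer than `ε ^ (-s)` exceptional representations.
-/

namespace Pool.Agent.Results.MP_7aad9f_nt.ExceptionsMultiply

open Pool.Agent.N746.Self

/-- **The abc conjecture is equivalent to a bound for the number of the exceptional triples with the
same largest member.** -/
theorem result (s : ℝ) (hs0 : 0 ≤ s) (M : ℕ) (hs : 1 < ∑ m ∈ Finset.Icc 2 M, (m : ℝ) ^ (-s)) :
    (ABC fun _ _ _ => True) ↔
      ∀ δ : ℝ, 0 < δ → ∃ ε : ℝ, 0 < ε ∧ ε < δ ∧ ∃ B : ℕ, ∀ c : ℕ, B < c →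
        ((bad ε c).ncard : ℝ) < ε ^ (-s) :=
  multiplicity s hs0 M hs

end Pool.Agent.Results.MP_7aad9f_nt.ExceptionsMultiply
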