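import Mathlib
import Pool.Agent.N906.QP.All

/-!
# The abc conjecture: joint law of the three radicals

Let `0 < A_i ≤ 1` with `2 < A_1 + A_2 + A_3 < 3`. The number `V(X)` of the triples of positive coprime integers
`a + b = c ≤ X` with `rad(a) ≤ c ^ A_1`, `rad(b) ≤ c ^ A_2` and `rad(c) ≤ c ^ A_3` satisfies

  `log V(X) = (A_1 + A_2 + A_3 - 1) log X + (∑_i √(8 (1 - A_i)) + o(1)) √(log X / log log X)`.
-/

set_option autoImplicit false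

namespace Pool.Agent.Results.MP_7aad9f_nt.JointRadicals

open Filter Topology

/-- the product of the primes dividing `n` -/
def rad (n : ℕ) : ℕ := ∏ p ∈ n.primeFactors, p

/-- the triples `(a, b, c)` of positive integers with `gcd(a, b) = 1`, `a + b = c ≤ X` and `rad(a) ≤ c ^ A_1`,
`rad(b) ≤ c ^ A_2`, `rad(c) ≤ c ^ A_3` -/
def Triples (A : Fin 3 → ℝ) (X : ℝ) : Set (ℕ × ℕ × ℕ) :=
  {t | 0 < t.1 ∧ 0 < t.2.1 ∧ Nat.Coprime t.1 t.2.1 ∧ t.1 + t.2.1 = t.2.2 ∧ (t.2.2 : ℝ) ≤ X ∧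
    (rad t.1 : ℝ) ≤ (t.2.2 : ℝ) ^ (A 0) ∧ (rad t.2.1 : ℝ) ≤ (t.2.2 : ℝ) ^ (A 1) ∧
    (rad t.2.2 : ℝ) ≤ (t.2.2 : ℝ) ^ (A 2)}

/-- **Theorem.** Let `0 < A_i ≤ 1` (`i = 1, 2, 3`) with `2 < A_1 + A_2 + A_3 < 3`. The number `V(X)` of the triples of
positive integers with `gcd(a, b) = 1`, `a + b = c ≤ X` and `rad(a) ≤ c ^ A_1`, `rad(b) ≤ c ^ A_2`, `rad(c) ≤ c ^ A_3` is
finite, and `(log V(X) - (A_1 + A_2 + A_3 - 1) log X) / √(log X / log log X)` tends to `∑_i √(8 (1 - A_i))`. -/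
theorem result : ∀ A : Fin 3 → ℝ, (∀ i, 0 < A i) → (∀ i, A i ≤ 1) → 2 < ∑ i, A i → ∑ i, A i < 3 →
    (∀ X : ℝ, (Triples A X).Finite) ∧
    Tendsto (fun X : ℝ => (Real.log ((Triples A X).ncard : ℝ) - (∑ i, A i - 1) * Real.log X) /
      √(Real.log X / Real.log (Real.log X))) atTop (𝓝 (∑ i, √(8 * (1 - A i)))) :=
  Pool.Agent.N906.KG.fint_all

end Pool.Agent.Results.MP_7aad9f_nt.JointRadicals
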