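import Mathlib
import Pool.Agent.N757.OC.Poly
import Pool.Agent.N757.OC.Tors2
import Pool.Agent.N757.OC.Odd2
import Pool.Agent.N757.OC.Mean2
import Pool.Agent.N757.OC.Mean3

/-!
# The abc conjecture is equivalent to its consequence for the radical of `x ^ p - y ^ q`

The abc conjecture implies, for all coprime integers `x`, `y` with `x ^ p ≠ y ^ q`,

  `R (x ^ p - y ^ q) ≥ κ M ^ (1 - 1/p - 1/q - ε)`, `M = max (|x| ^ p, |y| ^ q)`,

an inequality in which only one of the three members of the triple contributes its radical. We prove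
the converse for `(p, q) = (k, 2)` for every `k ≥ 3`, for `(3, 3)` and `(4, 4)`, and for all
signatures obtained from these by three rules, for instance for

  `(k m, 2 m)` (`k ≥ 3`), `((k + 1) m, 2 k m)` (`k ≥ 2`), `((k + 2) m, 2 k m)` (`k ≥ 3`).

It is enough to know the inequality for nearly equal powers: for `N ∣ x ^ p - y ^ q` and
`|x ^ p - y ^ q| ≤ δ M`, where `N` and `δ > 0` are fixed. In the same way the abc conjecture follows,
for every `n ≥ 2`, from the inequality `R (u v) ≥ κ max (|u|, |v|) ^ (1 - 1/n - ε)` for the coprime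
`u`, `v` whose sum is an `n`-th power.

The proofs use maps of the projective line which are ramified only over the cusp and the points of
orders `p`, `q`, and which have three rational points over the cusp. For the sums equal to an `n`-th
power this is Belyi's polynomial; for `(3, 3)` and `(4, 4)` power maps of the norm one tori of
`ℚ(√-3)` and `ℚ(i)`; for `(k, 2)` with `k = 2 j + 1` the map `u / v ↦ (y ^ k : x ^ 2)`, where
`u + v = s ^ k`, `y = (k² u + v) s` and `k x + E √(-k² u v)` is the product of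
`- k² u - k v + (1 - k) √(-k² u v)` and the `j`-th power of `- k² u + v + 2 √(-k² u v)`: then
`y ^ k - x ^ 2 = u v E ^ 2`, and `v` divides `E`. The rules come from the inequality of the weighted
arithmetic and geometric means: the difference of `((a u + b w) / (a + b)) ^ (a + b)` and `u ^ a w ^ b`
is divisible by `((u - w) / (a + b)) ^ 2`.
-/

namespace Pool.Agent.Results.MP_7aad9f_nt.RadicalsOfDifferences

open Pool.Agent.N757.OC

/-- the signatures: the smallest set of pairs which contains `(k, 2)` for all `k ≥ 3`, `(3, 3)` and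
`(4, 4)`, is closed under exchanging the two numbers and under common multiples, and contains with
`(p, q)` the pair `(a + b, p a)` for all `a, b ≥ 1` with `p a = q b`, and the pair `(p, q (p + 1))` -/
inductive Signature : ℕ → ℕ → Prop
  | square (k : ℕ) : 3 ≤ k → Signature k 2
  | cubes : Signature 3 3
  | fourth : Signature 4 4
  | swap {p q : ℕ} : Signature p q → Signature q p
  | multiple {p q : ℕ} (m : ℕ) : 1 ≤ m → Signature p q → Signature (p * m) (q * m)
  | mean {p q : ℕ} (a b : ℕ) : 1 ≤ a → 1 ≤ b → p * a = q * b → Signature p q →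
      Signature (a + b) (p * a)
  | mean' {p q : ℕ} : Signature p q → Signature p (q * (p + 1))

theorem sig_pos {p q : ℕ} (h : Signature p q) : 2 ≤ p ∧ 2 ≤ q ∧ 5 ≤ p + q := by
  induction h with
  | square k hk => omega
  | cubes => omega
  | fourth => omega
  | swap _ ih => omega
  | @multiple p q m hm _ ih =>
    obtain ⟨h1, h2, h3⟩ := ih
    have h4 : p * 1 ≤ p * m := Nat.mul_le_mul_left p hm
    have h5 : q * 1 ≤ q * m := Nat.mul_le_mul_left q hm
    omega
  | @mean p q a b ha hb hab _ ih =>
    obtain ⟨h1, h2, h3⟩ := ih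
    have h4 : 2 * 1 ≤ p * a := Nat.mul_le_mul h1 ha
    refine ⟨by omega, by omega, ?_⟩
    rcases Nat.lt_or_ge (a + b) 3 with h5 | h5
    · have ha1 : a = 1 := by omega
      have hb1 : b = 1 := by omega
      subst ha1 hb1
      omega
    · omega
  | @mean' p q _ ih =>
    obtain ⟨h1, h2, h3⟩ := ih
    have h4 : q * 1 ≤ q * (p + 1) := Nat.mul_le_mul_left q (by omega)
    omega

/-- `x` and `y` exchanged -/
theorem swap (p q N : ℕ) (δ : ℝ) (h : OneCusp p q N δ) : OneCusp q p N δ := by
  intro ε hε
  obtain ⟨κ, hκ0, hκ⟩ := h ε hε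
  refine ⟨κ, hκ0, fun x y hxy hne hN hclose => ?_⟩
  have h1 := hκ y x hxy.symm hne.symm (by
    have := hN.neg_right
    rwa [neg_sub] at this) (by rw [abs_sub_comm, max_comm]; exact hclose)
  rw [max_comm, show (y ^ p - x ^ q : ℤ) = -(x ^ q - y ^ p) by ring, Int.natAbs_neg] at h1
  rw [show 1 - 1 / (q : ℝ) - 1 / (p : ℝ) - ε = 1 - 1 / (p : ℝ) - 1 / (q : ℝ) - ε by ring]
  exact h1

theorem converse {p q : ℕ} (hpq : Signature p q) : ∀ N : ℕ, 1 ≤ N → ∀ δ : ℝ, 0 < δ →
    OneCusp p q N δ → ABC := by
  induction hpq with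
  | square k hk => exact fun N hN δ hδ h => oneCusp_two_abc k hk N hN δ hδ h
  | cubes => exact fun N hN δ hδ h => oneCusp_cubes_abc N hN δ hδ h
  | fourth => exact fun N hN δ hδ h => oneCusp_fourth_abc N hN δ hδ h
  | @swap p q _ ih => exact fun N hN δ hδ h => ih N hN δ hδ (swap q p N δ h)
  | @multiple p q m hm hs ih =>
    intro N hN δ hδ h
    obtain ⟨h1, h2, -⟩ := sig_pos hs
    have hm0 : (0 : ℝ) < m := by exact_mod_cast hm
    exact ih N hN (δ / m) (by positivity) (oneCusp_mul m p q N hm (by omega) (by omega) δ hδ h)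
  | @mean p q a b ha hb hab hs ih =>
    intro N hN δ hδ h
    obtain ⟨h1, h2, -⟩ := sig_pos hs
    obtain ⟨h3, h4, h5⟩ := sig_pos (Signature.mean a b ha hb hab hs)
    have hL : 3 ≤ p * a := by
      by_contra hcon
      have h6 : p * a = 2 := by omega
      have h7 : a = 1 := by nlinarith
      have h8 : b = 1 := by nlinarith
      omega
    obtain ⟨δ₁, hδ₁, h6⟩ := oneCusp_mean a b p q (p * a) N ha hb (by omega) (by omega) rfl hab.symm
      hL δ hδ h
    exact ih _ (Nat.mul_pos (by omega) (by positivity)) δ₁ hδ₁ h6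
  | @mean' p q hs ih =>
    intro N hN δ hδ h
    obtain ⟨h1, h2, -⟩ := sig_pos hs
    obtain ⟨δ₁, hδ₁, h6⟩ := oneCusp_mean' p q N h1 h2 δ hδ h
    exact ih _ (Nat.mul_pos (by omega) (by positivity)) δ₁ hδ₁ h6

/-- **The abc conjecture and the radical of `x ^ p - y ^ q`.** Let `N ≥ 1` and `δ > 0`.

* For every signature `(p, q)` of the set above the abc conjecture holds if and only if
  for every `ε > 0` there is `κ > 0` with `R (x ^ p - y ^ q) ≥ κ M ^ (1 - 1/p - 1/q - ε)`,
  `M = max (|x| ^ p, |y| ^ q)`, for all coprime integers `x`, `y` with `x ^ p ≠ y ^ q`,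
  `N ∣ x ^ p - y ^ q` and `|x ^ p - y ^ q| ≤ δ M`.
* For every `n ≥ 2` the abc conjecture holds if and only if for every `ε > 0` there is `κ > 0` with
  `R (u v) ≥ κ max (|u|, |v|) ^ (1 - 1/n - ε)` for all coprime nonzero integers `u`, `v` whose sum is an
  `n`-th power, with `N ∣ u` and `|u| ≤ δ |v|`.
* The set of signatures contains `(k m, 2 m)` for `k ≥ 3`, `(3 m, 3 m)`, `(4 m, 4 m)`,
  `((k + 1) m, 2 k m)` for `k ≥ 2` and `((k + 2) m, 2 k m)` for `k ≥ 3`, where `m ≥ 1`. -/
theorem result (N : ℕ) (hN : 1 ≤ N) (δ : ℝ) (hδ : 0 < δ) :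
    (∀ p q : ℕ, Signature p q → (ABC ↔ OneCusp p q N δ)) ∧
      (∀ n : ℕ, 2 ≤ n → (ABC ↔ TwoCusps n N δ)) ∧
      ∀ m : ℕ, 1 ≤ m → (∀ k : ℕ, 3 ≤ k → Signature (k * m) (2 * m)) ∧
        Signature (3 * m) (3 * m) ∧ Signature (4 * m) (4 * m) ∧
        (∀ k : ℕ, 2 ≤ k → Signature ((k + 1) * m) (2 * k * m)) ∧
        ∀ k : ℕ, 3 ≤ k → Signature ((k + 2) * m) (2 * k * m) := by
  refine ⟨fun p q hpq => ⟨fun h => ?_, converse hpq N hN δ hδ⟩, fun n hn =>
    ⟨fun h => abc_twoCusps h n N (by omega) δ, twoCusps_abc n hn N hN δ hδ⟩, fun m hm => ?_⟩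
  · obtain ⟨h1, h2, -⟩ := sig_pos hpq
    exact abc_oneCusp h p q N (by omega) (by omega) δ
  · refine ⟨fun k hk => (Signature.square k hk).multiple m hm, Signature.cubes.multiple m hm,
      Signature.fourth.multiple m hm, fun k hk => ?_, fun k hk => ?_⟩
    · have h1 := Signature.mean (p := 2 * k) (q := 2) 1 k le_rfl (by omega) (by ring)
        (Signature.square (2 * k) (by omega))
      rw [mul_one, add_comm] at h1
      exact h1.multiple m hm
    · have h1 := Signature.mean (p := k) (q := 2) 2 k (by omega) (by omega) (by ring)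
        (Signature.square k hk)
      rw [add_comm, mul_comm k 2] at h1
      exact h1.multiple m hm

end Pool.Agent.Results.MP_7aad9f_nt.RadicalsOfDifferences
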