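import Mathlib
import Pool.Agent.N746.Self.Spherical

/-!
# The abc conjecture is equivalent to its restriction to the generalized Fermat equations of
spherical signature

Let `p, q, r ≥ 1` with `1/p + 1/q + 1/r > 1`: the signatures `(1, q, r)`, `(2, 2, n)`, `(2, 3, 3)`,
`(2, 3, 4)`, `(2, 3, 5)` and their permutations. There are coefficients `A, B, C ≥ 1` such that the abc
conjecture holds if and only if it holds for the coprime triples `a + b = c` whose members are, in some
order, of the form `A x ^ p, B y ^ q, C z ^ r`; one may moreover restrict it to those of these triples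
with `N ∣ a` and `a ≤ δ c`, for given `N` and `δ > 0`, and with `c` in a sequence of windows
`[Y i, (Y i) ^ (1 + δ)]` where `Y i → ∞` and `Y (i + 1) ≤ (Y i) ^ s`.
-/

namespace Pool.Agent.Results.MP_7aad9f_nt.SphericalSignatures

open Filter Pool.Agent.N746.Self

/-- **The abc conjecture is equivalent to its restriction to the solutions of a generalized Fermat
equation of each spherical signature**, close to a cusp at finitely many places and of sizes in a
sparse sequence of windows. -/
theorem result (p q r : ℕ) (hp : 1 ≤ p) (hq : 1 ≤ q) (hr : 1 ≤ r)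
    (h : p * q * r < q * r + p * r + p * q) :
    ∃ A B C : ℕ, 0 < A ∧ 0 < B ∧ 0 < C ∧ A * B * C ∣ 1728 ∧
      ∀ (N s : ℕ) (δ : ℝ) (Y : ℕ → ℝ), 1 ≤ N → 0 < δ → (∀ i, 1 < Y i) → Tendsto Y atTop atTop →
        (∀ i, Y (i + 1) ≤ (Y i) ^ s) →
        ((ABC fun a b c => Sig p q r A B C a b c ∧ N ∣ a ∧ (a : ℝ) ≤ δ * c ∧
            ∃ i, Y i ≤ c ∧ (c : ℝ) ≤ (Y i) ^ (1 + δ)) ↔
          ABC fun _ _ _ => True) :=
  spherical p q r hp hq hr h

end Pool.Agent.Results.MP_7aad9f_nt.SphericalSignatures
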